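import Pool.Agent.Lib.MP_c38eaf_pr.Ref4

open MeasureTheory

open _root_.MP_c38eaf_pr

namespace Pool.Agent.Results.MP_c38eaf_pr.InnerBound

/-- `theta p > 0` for every `p` in `[0.325, 0.675]`: AB percolation on the triangular lattice
percolates on this interval. -/
theorem result (p : unitInterval) (h1 : (13 : ℝ) / 40 ≤ p) (h2 : (p : ℝ) ≤ 27 / 40) :
    0 < theta p :=
  inner_bound p h1 h2

end Pool.Agent.Results.MP_c38eaf_pr.InnerBound
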