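import Pool.Agent.Lib.MP_c38eaf_pr.Defs
import Pool.Agent.Lib.MP_c38eaf_pr.Final

set_option autoImplicit false

namespace Pool.Agent.Results.MP_c38eaf_pr.OpenInterval

open _root_.MP_c38eaf_pr

/-- **The percolating set of AB percolation on the triangular lattice.**
`theta p` is the probability that the origin lies in an infinite AB cluster, and `psi q` the
probability that the origin lies in an infinite cluster of ordinary Bernoulli(`q`) site percolation
on `T²`, the graph obtained from the triangular lattice `T` by joining sites at `T`-distance at
most two.  There is a number `c` in `[1/18, 1/2)` such that distance-two percolation occurs at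
density `q` exactly when `q > c` (so `c` is its critical density, and there is no percolation at
`c`), and the percolating set `Π = {p | theta p > 0}` is exactly the open interval `(c, 1 - c)`. -/
theorem result : ∃ c : ℝ, 1 / 18 ≤ c ∧ c < 1 / 2 ∧
    (∀ q : unitInterval, 0 < psi q ↔ c < q) ∧
    ∀ p : unitInterval, 0 < theta p ↔ c < p ∧ (p : ℝ) < 1 - c :=
  percolating_interval

end Pool.Agent.Results.MP_c38eaf_pr.OpenInterval
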