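import Pool.Agent.Lib.MP_c38eaf_pr.Perc
import Pool.Agent.Lib.MP_c38eaf_pr.Final

/-!
# An outer bound for the percolating interval of AB percolation on the triangular lattice

`theta p = 0` for all `p ≤ 0.146` and all `p ≥ 0.854`: the percolating set is contained in the open
interval `(0.146, 0.854)`, and site percolation on `T²` has critical density at least `0.146`.
-/

open MP_c38eaf_pr MP_c38eaf_pr.Explore

namespace Pool.Agent.Results.MP_c38eaf_pr.OuterBound

/-- **Outer bound.**  AB percolation at `p` implies `0.146 < p < 0.854`; percolation of the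
distance-two graph at density `q` implies `0.146 < q`. -/
theorem result :
    (∀ p : unitInterval, 0 < theta p → 73 / 500 < (p : ℝ) ∧ (p : ℝ) < 427 / 500) ∧
    ∀ q : unitInterval, 0 < psi q → 73 / 500 < (q : ℝ) := by
  obtain ⟨c, -, hc1, hpsi, htheta⟩ := percolating_interval
  have hc : 73 / 500 ≤ c := by
    by_contra hcon
    push Not at hcon
    have h := (hpsi ⟨73 / 500, by norm_num, by norm_num⟩).2 hcon
    rw [MP_c38eaf_pr.Explore.psi_eq_zero _ rfl] at h
    exact lt_irrefl _ h
  refine ⟨fun p hp => ?_, fun q hq => ?_⟩
  · obtain ⟨h1, h2⟩ := (htheta p).1 hp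
    exact ⟨by linarith, by linarith⟩
  · have := (hpsi q).1 hq
    linarith

end Pool.Agent.Results.MP_c38eaf_pr.OuterBound
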